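import Pool.Agent.Work.MP_8e9dbb.Defs

/-!
# MP_8e9dbb_gt : interface between A (metric framework), B (geodesics), C (analytic data)

All surfaces `X_t`, `t > 0`, are given by quarter domain data `D : QD`: the quarter domain is
`E = {0 ≤ θ ≤ π/2, 0 ≤ p ≤ β θ}` with the metric `A(p)² dp² + R(p)² dθ²`.
Pole `P` at `p = 0`, floor `p = β θ`; corners `B` (`θ = 0`) and `Q` (`θ = π/2`) on the floor.
`X = Double (Double (E, axis), leg ∪ floor)`.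
-/

open MeasureTheory Filter Topology Metric Set
open scoped ContDiff

namespace Pool.MP8e

/-- `(e^{iκϑ} - 1)/κ`, with value `iϑ` for `κ = 0`. -/
noncomputable def cdev (κ ϑ : ℝ) : ℂ :=
  if κ = 0 then (ϑ : ℂ) * Complex.I else (Complex.exp ((κ * ϑ : ℝ) * Complex.I) - 1) / κ

/-- the angle `θ ∈ ℝ` folded to `[0, π/2]` -/
noncomputable def fold (θ : ℝ) : ℝ := Real.arccos |Real.cos θ|

/-- Quarter domain data. Metric `A² dp² + R² dθ²` on `0 ≤ θ ≤ π/2`, `0 ≤ p ≤ β θ`;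
`R' = kN A` near the pole `p = 0` (Euclidean cone of angle `2π kN < 2π`), `R' = κ A` for
`pf ≤ p ≤ ℓ` (flat part), the floor `p = β θ` is a straight segment of the flat part; the
perpendicular from the (virtual) apex of the flat part meets it at `θ = θf`, where `R = ρf`. -/
structure QD where
  A : ℝ → ℝ
  R : ℝ → ℝ
  β : ℝ → ℝ
  ℓ : ℝ
  kN : ℝ
  e₀ : ℝ
  κ : ℝ
  θf : ℝ
  ρf : ℝ
  pf : ℝ
  smA : ContDiff ℝ ∞ A
  smR : ContDiff ℝ ∞ R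
  posA : ∀ p ∈ Icc 0 ℓ, 0 < A p
  R0 : R 0 = 0
  posR : ∀ p ∈ Ioc 0 ℓ, 0 < R p
  kN_pos : 0 < kN
  kN_lt : kN < 1
  e₀_pos : 0 < e₀
  e₀_lt : e₀ < pf
  cone0 : ∀ p ∈ Icc 0 e₀, deriv R p = kN * A p
  cls : (κ < 0 ∧ -1 ≤ κ ∧ Real.pi / 4 ≤ θf ∧ θf < Real.pi / 2) ∨
    (0 ≤ κ ∧ κ ≤ 1 / 3 ∧ θf = Real.pi / 2)
  ρf_pos : 0 < ρf
  flat : ∀ p ∈ Icc pf ℓ, deriv R p = κ * A p
  β_mem : ∀ θ ∈ Icc 0 (Real.pi / 2), pf < β θ ∧ β θ ≤ ℓ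
  floor : ∀ θ ∈ Icc 0 (Real.pi / 2), R (β θ) * Real.cos (κ * (θ - θf)) = ρf
  β_const : κ = 0 → ∀ θ ∈ Icc 0 (Real.pi / 2), β θ = β θf

namespace QD

variable (D : QD)

/-- height of the floor, for all `θ` -/
noncomputable def βh (θ : ℝ) : ℝ := D.β (fold θ)

/-- the norm of the metric at height `p` -/
noncomputable def nm (p : ℝ) (u : ℝ × ℝ) : ℝ := √((D.A p * u.1) ^ 2 + (D.R p * u.2) ^ 2)

/-- slope `dR/ds` -/
noncomputable def f (p : ℝ) : ℝ := deriv D.R p / D.A p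

/-- arc length from the foot height `β θf` -/
noncomputable def σ (p : ℝ) : ℝ := ∫ u in (D.β D.θf)..p, D.A u

/-- The developing map of the flat part with foot angle `c`: `dZ = e^{iκ(θ-c)} (A dp + i R dθ)`,
the floor is `Re Z = 0`, the surface is `Re Z ≤ 0`, the foot is `0`. -/
noncomputable def Z (c p θ : ℝ) : ℂ :=
  (D.σ p : ℂ) * Complex.exp ((D.κ * (θ - c) : ℝ) * Complex.I) + (D.ρf : ℂ) * cdev D.κ (θ - c)

/-- `c` is the foot angle of the piece of floor which contains the angle `θ₀` in its interior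
(corners excluded; `Q`, i.e. `θ₀ ≡ π/2`, is allowed if it is a foot). -/
def IsFoot (θ₀ c : ℝ) : Prop := ∃ j : ℤ,
  (c = D.θf + j * Real.pi ∧ j * Real.pi < θ₀ ∧ θ₀ < j * Real.pi + Real.pi / 2) ∨
  (c = -D.θf + j * Real.pi ∧ j * Real.pi - Real.pi / 2 < θ₀ ∧ θ₀ < j * Real.pi) ∨
  (D.θf = Real.pi / 2 ∧ c = Real.pi / 2 + j * Real.pi ∧ θ₀ = c)

/-- the interior angle of the quarter domain at `Q` -/
noncomputable def αQ : ℝ := Real.pi / 2 - D.κ * (Real.pi / 2 - D.θf)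

/-- the cone angle of `A` and `B` -/
noncomputable def angAB : ℝ := Real.pi - 2 * D.κ * D.θf

/-- `ξ ∈ [0, αQ]` is the angle at `Q` between the axis and the point `(p, θ)` of the quarter
domain. -/
def IsAngQ (p θ ξ : ℝ) : Prop := 0 ≤ ξ ∧ ξ ≤ D.αQ ∧
  D.Z D.θf p θ - D.Z D.θf (D.β (Real.pi / 2)) (Real.pi / 2) =
    (‖D.Z D.θf p θ - D.Z D.θf (D.β (Real.pi / 2)) (Real.pi / 2)‖ : ℂ) *
      Complex.exp ((Real.pi + D.κ * (Real.pi / 2 - D.θf) + ξ : ℝ) * Complex.I)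

end QD

/-- The local facts on `X` which are used by part B. `π(p, θ)` (`Pr`) is the map of the disc
`{0 ≤ p ≤ βh θ}` onto `X`. -/
structure Facts (D : QD) (X : Type) [MetricSpace X] (Pr : ℝ × ℝ → X) : Prop where
  per : ∀ p θ, Pr (p, θ + 2 * Real.pi) = Pr (p, θ)
  flr : ∀ θ, Pr (D.βh θ, -θ) = Pr (D.βh θ, θ)
  surj : ∀ x : X, ∃ p θ, 0 ≤ p ∧ p ≤ D.βh θ ∧ Pr (p, θ) = x
  pole : ∀ θ, Pr (0, θ) = Pr (0, 0)
  cont : ContinuousOn Pr {x | 0 ≤ x.1 ∧ x.1 ≤ D.βh x.2}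
  inj : ∀ p θ p' θ', 0 < p → p < D.βh θ → 0 ≤ p' → p' ≤ D.βh θ' → Pr (p, θ) = Pr (p', θ') →
    p' = p ∧ ∃ n : ℤ, θ' = θ + n * (2 * Real.pi)
  injF : ∀ θ p' θ', 0 ≤ p' → p' ≤ D.βh θ' → Pr (D.βh θ, θ) = Pr (p', θ') →
    p' = D.βh θ ∧ ∃ n : ℤ, θ' = θ + n * (2 * Real.pi) ∨ θ' = -θ + n * (2 * Real.pi)
  /-- the distance is infinitesimally the norm of the metric -/
  strip : ∀ q : ℝ × ℝ, 0 < q.1 → q.1 < D.βh q.2 → ∀ ε > 0, ∃ δ > 0, ∀ x y : ℝ × ℝ,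
    dist x q < δ → dist y q < δ → |dist (Pr x) (Pr y) - D.nm q.1 (x - y)| ≤ ε * ‖x - y‖
  opn : ∀ q : ℝ × ℝ, 0 < q.1 → q.1 < D.βh q.2 → ∀ δ > 0, ∃ r > 0,
    ball (Pr q) r ⊆ Pr '' ball q δ
  coneP : IsConePoint (Pr (0, 0)) (2 * Real.pi * D.kN)
  coneB : IsConePoint (Pr (D.β 0, 0)) D.angAB
  coneA : IsConePoint (Pr (D.β 0, Real.pi)) D.angAB
  /-- a point of the floor which is not a corner has a ball isometric to a Euclidean disc; the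
  two sides of the floor are the images of `(p, θ)` and `(p, -θ)` -/
  floor : ∀ θ₀ c, D.IsFoot θ₀ c → ∀ η > 0, ∃ r > 0, ∃ ζ : X → ℂ,
    ζ (Pr (D.βh θ₀, θ₀)) = D.Z c (D.βh θ₀) θ₀ ∧
    (∀ x ∈ ball (Pr (D.βh θ₀, θ₀)) r, ∀ y ∈ ball (Pr (D.βh θ₀, θ₀)) r,
      dist x y = ‖ζ x - ζ y‖) ∧
    (∀ x ∈ ball (Pr (D.βh θ₀, θ₀)) r, ∃ p θ, |p - D.βh θ₀| < η ∧ |θ - θ₀| < η ∧
      p ≤ D.βh θ ∧ (D.Z c p θ).re ≤ 0 ∧
      ((x = Pr (p, θ) ∧ ζ x = D.Z c p θ) ∨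
        (x = Pr (p, -θ) ∧ ζ x = -(starRingEnd ℂ) (D.Z c p θ)))) ∧
    (∀ z : ℂ, ‖z - D.Z c (D.βh θ₀) θ₀‖ < r → ∃ x ∈ ball (Pr (D.βh θ₀, θ₀)) r, ζ x = z)
  /-- `Q` is a cone point of angle `4 αQ`, with explicit polar coordinates -/
  coneQ : ∀ η > 0, ∃ r > 0, ∃ ψ : X → ℝ × ℝ,
    (∀ x ∈ ball (Pr (D.β (Real.pi / 2), Real.pi / 2)) r, 0 ≤ (ψ x).1 ∧
      dist x (Pr (D.β (Real.pi / 2), Real.pi / 2)) = (ψ x).1) ∧
    (∀ x ∈ ball (Pr (D.β (Real.pi / 2), Real.pi / 2)) r,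
      ∀ y ∈ ball (Pr (D.β (Real.pi / 2), Real.pi / 2)) r,
        dist x y = coneDist (4 * D.αQ) (ψ x) (ψ y)) ∧
    (∀ s φ : ℝ, 0 ≤ s → s < r → ∃ x ∈ ball (Pr (D.β (Real.pi / 2), Real.pi / 2)) r,
      coneDist (4 * D.αQ) (ψ x) (s, φ) = 0) ∧
    (∀ x ∈ ball (Pr (D.β (Real.pi / 2), Real.pi / 2)) r, ∃ p θ ξ,
      |p - D.β (Real.pi / 2)| < η ∧ Real.pi / 2 - η < θ ∧ θ ≤ Real.pi / 2 ∧ p ≤ D.β θ ∧
      D.IsAngQ p θ ξ ∧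
      (ψ x).1 = ‖D.Z D.θf p θ - D.Z D.θf (D.β (Real.pi / 2)) (Real.pi / 2)‖ ∧
      ((x = Pr (p, θ) ∧ (ψ x).2 = -ξ) ∨ (x = Pr (p, Real.pi - θ) ∧ (ψ x).2 = ξ) ∨
        (x = Pr (p, θ - Real.pi) ∧ (ψ x).2 = 2 * D.αQ - ξ) ∨
        (x = Pr (p, -θ) ∧ (ψ x).2 = 2 * D.αQ + ξ)))

/-! ## Arcs -/

/-- A unit speed solution of the geodesic equations on `[a, b]` (continuous on `[a, b]`,
differentiable inside): `v = A p'`, `w = R θ'`. -/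
structure Arc (D : QD) (a b : ℝ) (p θ v w : ℝ → ℝ) : Prop where
  lt : a < b
  cp : ContinuousOn p (Icc a b)
  cθ : ContinuousOn θ (Icc a b)
  cv : ContinuousOn v (Icc a b)
  cw : ContinuousOn w (Icc a b)
  pos : ∀ t ∈ Icc a b, 0 < p t ∧ p t ≤ D.ℓ
  unit : ∀ t ∈ Icc a b, v t ^ 2 + w t ^ 2 = 1
  dp : ∀ t ∈ Ioo a b, HasDerivAt p (v t / D.A (p t)) t
  dθ : ∀ t ∈ Ioo a b, HasDerivAt θ (w t / D.R (p t)) t
  dv : ∀ t ∈ Ioo a b, HasDerivAt v (D.f (p t) * w t ^ 2 / D.R (p t)) t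
  dw : ∀ t ∈ Ioo a b, HasDerivAt w (-(D.f (p t) * v t * w t / D.R (p t))) t

end Pool.MP8e
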