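import Mathlib

/-!
# MP_8e9dbb_gt : definitions and statement

A metric `g ∈ M` (a metric on `S²`, smooth Riemannian outside a finite set `Σ`, near each point of
`Σ` isometric to a Euclidean cone) is encoded by its length distance `d_g`, i.e. by the metric space
`(S², d_g)`.  Everything in the problem (closed geodesics, systole, area, Lipschitz distance)
depends only on this metric space up to isometry.
-/

open MeasureTheory Filter Topology Metric
open scoped ContDiff

namespace Pool.MP8e

/-- The Euclidean plane. -/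
abbrev E2 := EuclideanSpace ℝ (Fin 2)
/-- Euclidean three space. -/
abbrev E3 := EuclideanSpace ℝ (Fin 3)
/-- The unit sphere of `E3` (as a set of points). -/
abbrev S2 := Metric.sphere (0 : E3) 1

/-- Distance of two angles `a`, `b` modulo the total angle `θ`. -/
noncomputable def angleGap (θ a b : ℝ) : ℝ := ⨅ n : ℤ, |a - b + n * θ|

/-- The distance of the Euclidean cone of total angle `θ` in polar coordinates `(r, φ)`
(`r ≥ 0` the distance to the apex, `φ` modulo `θ`):
law of cosines for the angle `min (angular gap, π)`. -/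
noncomputable def coneDist (θ : ℝ) (x y : ℝ × ℝ) : ℝ :=
  √(x.1 ^ 2 + y.1 ^ 2 - 2 * x.1 * y.1 * Real.cos (min (angleGap θ x.2 y.2) Real.pi))

section
variable {X : Type} [MetricSpace X]

/-- A ball around `p` is isometric to the ball of the same radius around the apex of the
Euclidean cone of total angle `θ`. -/
def IsConePoint (p : X) (θ : ℝ) : Prop :=
  ∃ r > 0, ∃ ψ : X → ℝ × ℝ,
    (∀ x ∈ ball p r, 0 ≤ (ψ x).1 ∧ dist x p = (ψ x).1) ∧
    (∀ x ∈ ball p r, ∀ y ∈ ball p r, dist x y = coneDist θ (ψ x) (ψ y)) ∧
    (∀ s φ : ℝ, 0 ≤ s → s < r → ∃ x ∈ ball p r, coneDist θ (ψ x) (s, φ) = 0)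

/-- The norm of the vector `v` for the quadratic form with matrix `G`. -/
noncomputable def gnorm (G : Matrix (Fin 2) (Fin 2) ℝ) (v : E2) : ℝ :=
  √(∑ i, ∑ j, G i j * v i * v j)

/-- `p` has an open neighbourhood `U` with a chart `φ : U → ℝ²` in which the distance is given by a
smooth Riemannian metric `G`: near every `q ∈ U` one has
`dist x y = (1 + o(1)) |φ x - φ y|_{G (φ q)}` for `x, y → q`.  (For a length distance this says
exactly that the length of a curve in `U` is its Riemannian length for `G`.) -/
def IsSmoothPoint (p : X) : Prop :=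
  ∃ (U : Set X) (φ : X → E2) (G : E2 → Matrix (Fin 2) (Fin 2) ℝ),
    IsOpen U ∧ p ∈ U ∧ IsOpen (φ '' U) ∧ Set.InjOn φ U ∧ ContinuousOn φ U ∧
    (∀ i j, ContDiffOn ℝ ∞ (fun z => G z i j) (φ '' U)) ∧
    (∀ z ∈ φ '' U, (G z).PosDef) ∧
    ∀ q ∈ U, ∀ ε > 0, ∃ δ > 0, ∀ x ∈ U, ∀ y ∈ U, dist x q < δ → dist y q < δ →
      |dist x y - gnorm (G (φ q)) (φ x - φ y)| ≤ ε * dist x y

/-- A closed geodesic of length `L`, parametrised by arc length: a closed curve all of whose
sufficiently short arcs are shortest paths. -/
def IsClosedGeodesic (L : ℝ) (c : ℝ → X) : Prop :=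
  0 < L ∧ (∀ t, c (t + L) = c t) ∧ ∃ ε > 0, ∀ s t, |s - t| ≤ ε → dist (c s) (c t) = |s - t|

/-- `S` is the least length of a closed geodesic. -/
def HasSystole (X : Type) [MetricSpace X] (S : ℝ) : Prop :=
  IsLeast {L : ℝ | ∃ c : ℝ → X, IsClosedGeodesic L c} S

end

/-- The elements of `M`: metrics on `S²`, smooth Riemannian outside a finite set of conical
points, given by their length distance. -/
structure ConeSphere where
  /-- the points -/
  X : Type
  [metric : MetricSpace X]
  [compact : CompactSpace X]
  /-- the space is a topological 2-sphere -/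
  sphere : Nonempty (X ≃ₜ S2)
  /-- the distance is a length distance (midpoints exist) -/
  length : ∀ x y : X, ∃ z, dist x z = dist x y / 2 ∧ dist z y = dist x y / 2
  /-- the singular set -/
  sing : Set X
  sing_finite : sing.Finite
  smooth : ∀ p, p ∉ sing → IsSmoothPoint p
  conical : ∀ p ∈ sing, ∃ θ > 0, IsConePoint p θ

attribute [instance] ConeSphere.metric ConeSphere.compact

/-- The area: two dimensional Hausdorff measure, normalised to be Lebesgue measure on the
Euclidean plane. -/
noncomputable def area (g : ConeSphere) : ℝ :=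
  letI : MeasurableSpace g.X := borel g.X
  haveI : BorelSpace g.X := ⟨rfl⟩
  (MeasureTheory.Measure.euclideanHausdorffMeasure 2 (Set.univ : Set g.X)).toReal

/-- There is a homeomorphism `f` with `log max (Lip f, Lip f⁻¹) ≤ ε`. -/
def LipClose (g h : ConeSphere) (ε : ℝ) : Prop :=
  ∃ f : g.X ≃ h.X, ∀ x y, dist (f x) (f y) ≤ Real.exp ε * dist x y ∧
    dist x y ≤ Real.exp ε * dist (f x) (f y)

/-- The Lipschitz distance `d_L`. -/
noncomputable def dL (g h : ConeSphere) : ENNReal :=
  ⨅ (ε : ℝ) (_ : LipClose g h ε), ENNReal.ofReal ε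

/-- `g` is the round unit sphere: `S²` with the angular distance. -/
def IsRound (g : ConeSphere) : Prop :=
  ∃ f : g.X ≃ S2, ∀ x y, dist x y = InnerProductGeometry.angle (f x : E3) (f y : E3)

/-- `g` is a doubled equilateral triangle: two copies of a Euclidean equilateral triangle `T`
glued along the boundary. -/
def IsDoubledEquilateral (g : ConeSphere) : Prop :=
  ∃ v : Fin 3 → E2, 0 < dist (v 0) (v 1) ∧ dist (v 1) (v 2) = dist (v 0) (v 1) ∧
    dist (v 2) (v 0) = dist (v 0) (v 1) ∧
    ∃ f : (convexHull ℝ (Set.range v) : Set E2) × Bool → g.X, Function.Surjective f ∧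
      (∀ x y i, dist (f (x, i)) (f (y, i)) = dist x y) ∧
      (∀ x y, dist (f (x, true)) (f (y, false)) =
        ⨅ z : frontier (convexHull ℝ (Set.range v) : Set E2),
          (dist (x : E2) (z : E2) + dist (z : E2) (y : E2)))

/-- **Q1**: there is a continuous family in `(M, d_L)` from the round sphere to the doubled
equilateral triangle along which `σ = area / sys²` is non-increasing. -/
def MonotonePath : Prop :=
  ∃ g : unitInterval → ConeSphere,
    (∀ t, Tendsto (fun t' => dL (g t) (g t')) (𝓝 t) (𝓝 0)) ∧
    IsRound (g 0) ∧ IsDoubledEquilateral (g 1) ∧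
    ∃ sys : unitInterval → ℝ, (∀ t, HasSystole (g t).X (sys t)) ∧
      Antitone (fun t => area (g t) / sys t ^ 2)

end Pool.MP8e
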