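import Pool.Agent.Work.MP_8e9dbb.IfaceT
import Pool.Agent.Work.MP_8e9dbb.B.ClassI

/-!
# MP_8e9dbb_gt, B-analysis: class I (`κ < 0`, phases R' and S').  Goal (helper77).
`CapsI` is the structure of `B/ClassI.lean`.
-/

namespace Pool.MP8e

/-- **Class I, lower bound** -/
def Stmt_ILOW : Prop := ∀ D : QD, CapsI D → ∀ L, GeoData D L → 2 * Real.pi ≤ L

end Pool.MP8e
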