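import Pool.Agent.Work.MP_8e9dbb.Iface

/-!
# MP_8e9dbb_gt, part B: geodesics.  Statements of the blocks (`Stmt_*`), no proofs.

`GeoData D L` is everything the metric geometry says about a closed geodesic of length `L` of the
surface with quarter domain data `D`:  either it never touches the floor and is a periodic
solution of the geodesic equations, or it is a cyclic sequence of arcs between contacts with the
floor, with the contact law.  B-geometry: `Facts D X Pr` and `IsClosedGeodesic L c` imply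
`GeoData D L`  (`Stmt_GEO`).  B-analysis: `GeoData D L` implies the lower bound of `L`.
-/

open MeasureTheory Filter Topology Metric Set
open scoped ContDiff

namespace Pool.MP8e

/-- the geodesic equations at the time `t` (unit speed; `v = A p'`, `w = R θ'`) -/
structure EqAt (D : QD) (p θ v w : ℝ → ℝ) (t : ℝ) : Prop where
  unit : v t ^ 2 + w t ^ 2 = 1
  dp : HasDerivAt p (v t / D.A (p t)) t
  dθ : HasDerivAt θ (w t / D.R (p t)) t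
  dv : HasDerivAt v (D.f (p t) * w t ^ 2 / D.R (p t)) t
  dw : HasDerivAt w (-(D.f (p t) * v t * w t / D.R (p t))) t

/-- open strip -/
def QD.InS (D : QD) (q : ℝ × ℝ) : Prop := 0 < q.1 ∧ q.1 < D.βh q.2

/-- the point of the floor with the angle `θ`, as a point of the plane -/
noncomputable def QD.fl (D : QD) (θ : ℝ) : ℝ × ℝ := (D.βh θ, θ)

/-- An excursion: an arc from the floor to the floor, inside the strip in between. -/
structure Exc (D : QD) (a b : ℝ) (p θ v w : ℝ → ℝ) : Prop where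
  arc : Arc D a b p θ v w
  ins : ∀ t ∈ Ioo a b, p t < D.βh (θ t)
  pa : p a = D.βh (θ a)
  pb : p b = D.βh (θ b)

/-- Crossing of the floor at a regular point. `(θm, vm, wm)`: angle and velocity before,
`(θp, vp, wp)`: after, `c₀` = foot. -/
def RegContact (D : QD) (θm vm wm θp vp wp : ℝ) : Prop :=
  ∃ (c₀ : ℝ) (n : ℤ), D.IsFoot θm c₀ ∧ θp = -θm + n * (2 * Real.pi) ∧
    0 < (Complex.exp ((D.κ * (θm - c₀) : ℝ) * Complex.I) * ((vm : ℂ) + wm * Complex.I)).re ∧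
    ((vp : ℂ) + wp * Complex.I) =
      -(Complex.exp ((2 * D.κ * (θm - c₀) : ℝ) * Complex.I) * ((vm : ℂ) + wm * Complex.I))

/-- Passage through `Q` (`θ ≡ π/2` modulo `π`). `Ξm`, `Ξp`: angles of the two rays with the
axis, measured at `Q`. -/
def QContact (D : QD) (θm vm wm θp vp wp : ℝ) : Prop :=
  ∃ (jm jp : ℤ) (Ξm Ξp : ℝ), θm = Real.pi / 2 + jm * Real.pi ∧ θp = Real.pi / 2 + jp * Real.pi ∧
    |Ξm| < D.αQ ∧ |Ξp| < D.αQ ∧ vm = Real.cos Ξm ∧ wm = -Real.sin Ξm ∧ vp = -Real.cos Ξp ∧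
    wp = Real.sin Ξp ∧
    Real.pi ≤ angleGap (4 * D.αQ) (Ξm + 2 * D.αQ * jm) (Ξp + 2 * D.αQ * jp)

def Contact (D : QD) (θm vm wm θp vp wp : ℝ) : Prop :=
  RegContact D θm vm wm θp vp wp ∨ (D.κ < 0 ∧ QContact D θm vm wm θp vp wp)

/-- a closed geodesic which does not touch the floor -/
def FreeData (D : QD) (L : ℝ) : Prop :=
  ∃ p θ v w : ℝ → ℝ, (∀ t, D.InS (p t, θ t) ∧ EqAt D p θ v w t) ∧
    (∀ t, p (t + L) = p t ∧ v (t + L) = v t ∧ w (t + L) = w t) ∧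
    ∃ m : ℤ, ∀ t, θ (t + L) = θ t + m * (2 * Real.pi)

/-- a closed geodesic with `n ≥ 1` contacts with the floor (`τ i` : the contact times) -/
def HitData (D : QD) (L : ℝ) (n : ℕ) (τ : ℕ → ℝ) (p θ v w : ℕ → ℝ → ℝ) : Prop :=
  1 ≤ n ∧ StrictMono τ ∧ (∀ i, τ (i + n) = τ i + L) ∧
    (∀ i, Exc D (τ i) (τ (i + 1)) (p i) (θ i) (v i) (w i)) ∧
    (∀ i, Contact D (θ i (τ (i + 1))) (v i (τ (i + 1))) (w i (τ (i + 1)))
      (θ (i + 1) (τ (i + 1))) (v (i + 1) (τ (i + 1))) (w (i + 1) (τ (i + 1)))) ∧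
    (∀ i, ∀ t ∈ Icc (τ i) (τ (i + 1)), p (i + n) (t + L) = p i t ∧ v (i + n) (t + L) = v i t ∧
      w (i + n) (t + L) = w i t) ∧
    (∀ i, ∃ m : ℤ, ∀ t ∈ Icc (τ i) (τ (i + 1)), θ (i + n) (t + L) = θ i t + m * (2 * Real.pi))

def GeoData (D : QD) (L : ℝ) : Prop :=
  0 < L ∧ (FreeData D L ∨ ∃ n τ p θ v w, HitData D L n τ p θ v w)

/-- short arcs are shortest -/
def IsGeo {X : Type} [MetricSpace X] (c : ℝ → X) : Prop :=
  ∃ ε > 0, ∀ s t, |s - t| ≤ ε → dist (c s) (c t) = |s - t|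

/-- An arc of the curve `c`, lifted to the closed strip, touching the floor at most at the ends. -/
structure Lift (D : QD) {X : Type} [MetricSpace X] (Pr : ℝ × ℝ → X) (c : ℝ → X) (a b : ℝ)
    (p θ v w : ℝ → ℝ) : Prop where
  arc : Arc D a b p θ v w
  ins : ∀ t ∈ Ioo a b, p t < D.βh (θ t)
  eq : ∀ t ∈ Icc a b, Pr (p t, θ t) = c t

/-- the two sided local structure of a geodesic at a contact time `τ` -/
def ContactAt (D : QD) {X : Type} [MetricSpace X] (Pr : ℝ × ℝ → X) (c : ℝ → X) (τ : ℝ) : Prop :=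
  ∃ δ > 0, ∃ p θ v w p' θ' v' w' : ℝ → ℝ, Lift D Pr c (τ - δ) τ p θ v w ∧
    Lift D Pr c τ (τ + δ) p' θ' v' w' ∧ p τ = D.βh (θ τ) ∧ p' τ = D.βh (θ' τ) ∧
    Contact D (θ τ) (v τ) (w τ) (θ' τ) (v' τ) (w' τ)

/-! ## B-geometry: local theory in the strip -/

/-- cone points of angle `< 2π` are avoided -/
def Stmt_CON : Prop := ∀ (X : Type) [MetricSpace X] (c : ℝ → X), IsGeo c →
  ∀ (x : X) (α : ℝ), IsConePoint x α → 0 < α → α < 2 * Real.pi → ∀ t, c t ≠ x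

/-- elementary facts about the floor function: `fold`, continuity of `βh`, the strip is open -/
def Stmt_BETA : Prop := ∀ D : QD, (∀ θ, D.βh (-θ) = D.βh θ) ∧ (∀ θ, D.βh (θ + Real.pi) = D.βh θ) ∧
  Continuous D.βh ∧ (∀ θ, D.pf < D.βh θ ∧ D.βh θ ≤ D.ℓ) ∧ IsOpen {q : ℝ × ℝ | D.InS q} ∧
  (∀ p ∈ Icc D.pf D.ℓ, D.R p = D.ρf + D.κ * D.σ p)

/-- local lifts -/
def Stmt_LIF : Prop := ∀ (D : QD) (X : Type) [MetricSpace X] (Pr : ℝ × ℝ → X), Facts D X Pr →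
  ∀ c : ℝ → X, Continuous c → ∀ (t₀ : ℝ) (q : ℝ × ℝ), D.InS q → c t₀ = Pr q →
  ∃ δ > 0, ∃ x : ℝ → ℝ × ℝ, ContinuousOn x (ball t₀ δ) ∧ x t₀ = q ∧
    ∀ t ∈ ball t₀ δ, D.InS (x t) ∧ Pr (x t) = c t

/-- uniqueness of lifts -/
def Stmt_UNI : Prop := ∀ (D : QD) (X : Type) [MetricSpace X] (Pr : ℝ × ℝ → X), Facts D X Pr →
  ∀ (I : Set ℝ), IsPreconnected I → ∀ p θ p' θ' : ℝ → ℝ, ContinuousOn θ I →
    ContinuousOn θ' I → (∀ t ∈ I, D.InS (p t, θ t) ∧ D.InS (p' t, θ' t) ∧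
      Pr (p t, θ t) = Pr (p' t, θ' t)) →
    ∃ m : ℤ, ∀ t ∈ I, p' t = p t ∧ θ' t = θ t + m * (2 * Real.pi)

/-- competitors: the distance is at most the length of a Lipschitz curve in the strip -/
def Stmt_CMP : Prop := ∀ (D : QD) (X : Type) [MetricSpace X] (Pr : ℝ × ℝ → X), Facts D X Pr →
  ∀ (a b : ℝ), a ≤ b → ∀ p θ : ℝ → ℝ, (∃ C, LipschitzOnWith C p (Icc a b)) →
    (∃ C, LipschitzOnWith C θ (Icc a b)) → (∀ t ∈ Icc a b, D.InS (p t, θ t)) →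
    dist (Pr (p a, θ a)) (Pr (p b, θ b)) ≤
      ∫ t in a..b, D.nm (p t) (deriv p t, deriv θ t)

/-- a lift of a geodesic is locally Lipschitz, with speed at most one almost everywhere -/
def Stmt_SPD : Prop := ∀ (D : QD) (X : Type) [MetricSpace X] (Pr : ℝ × ℝ → X), Facts D X Pr →
  ∀ c : ℝ → X, IsGeo c → ∀ (t₀ δ : ℝ) (x : ℝ → ℝ × ℝ), 0 < δ → ContinuousOn x (ball t₀ δ) →
    (∀ t ∈ ball t₀ δ, D.InS (x t) ∧ Pr (x t) = c t) →
    ∃ δ' > 0, δ' ≤ δ ∧ (∃ C, LipschitzOnWith C (fun t => (x t).1) (ball t₀ δ')) ∧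
      (∃ C, LipschitzOnWith C (fun t => (x t).2) (ball t₀ δ')) ∧
      ∀ᵐ t, t ∈ ball t₀ δ' → D.nm (x t).1 (deriv (fun u => (x u).1) t, deriv (fun u => (x u).2) t) ≤ 1

/-- Calculus of variations (no metric geometry). Proof: by Cauchy-Schwarz the energy of the
competitors is at least `b - a ≥` energy of the curve, so the first variation of the energy
`∫ (A p')² + (R θ')²` vanishes; then the lemma of du Bois-Reymond. -/
def Stmt_VAR : Prop := ∀ (D : QD) (a b : ℝ), a < b → ∀ (p θ : ℝ → ℝ),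
    (∃ C, LipschitzOnWith C p (Icc a b)) → (∃ C, LipschitzOnWith C θ (Icc a b)) →
    (∀ t ∈ Icc a b, 0 < p t ∧ p t < D.ℓ) →
    (∀ᵐ t, t ∈ Icc a b → D.nm (p t) (deriv p t, deriv θ t) ≤ 1) →
    (∀ φ ψ : ℝ → ℝ, (∃ C, LipschitzWith C φ) → (∃ C, LipschitzWith C ψ) →
      φ a = 0 → φ b = 0 → ψ a = 0 → ψ b = 0 → ∃ ε₀ > 0, ∀ ε : ℝ, |ε| < ε₀ →
        b - a ≤ ∫ t in a..b, D.nm (p t + ε * φ t) (deriv p t + ε * deriv φ t,
          deriv θ t + ε * deriv ψ t)) →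
    ∃ v w : ℝ → ℝ, ∀ t ∈ Ioo a b, EqAt D p θ v w t

/-- local geodesic equations (assembly of LIF, SPD, CMP, VAR) -/
def Stmt_LOC : Prop := ∀ (D : QD) (X : Type) [MetricSpace X] (Pr : ℝ × ℝ → X), Facts D X Pr →
  ∀ c : ℝ → X, IsGeo c → ∀ (t₀ : ℝ) (q : ℝ × ℝ), D.InS q → c t₀ = Pr q →
  ∃ δ > 0, ∃ p θ v w : ℝ → ℝ, p t₀ = q.1 ∧ θ t₀ = q.2 ∧ ∀ t ∈ ball t₀ δ,
    D.InS (p t, θ t) ∧ Pr (p t, θ t) = c t ∧ EqAt D p θ v w t

/-- arcs on open intervals. Proof: `p`, `v`, `w` and `θ'` are well defined functions of `c` on `I`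
by UNI; integrate `θ'`; then the set where `Pr (p, θ) = c` is open and closed in `I`. -/
def Stmt_ARC : Prop := ∀ (D : QD) (X : Type) [MetricSpace X] (Pr : ℝ × ℝ → X), Facts D X Pr →
  ∀ c : ℝ → X, IsGeo c → ∀ I : Set ℝ, IsOpen I → IsPreconnected I → ∀ t₀ ∈ I,
    (∀ t ∈ I, ∃ q, D.InS q ∧ c t = Pr q) → ∀ q, D.InS q → c t₀ = Pr q →
    ∃ p θ v w : ℝ → ℝ, p t₀ = q.1 ∧ θ t₀ = q.2 ∧ ∀ t ∈ I,
      D.InS (p t, θ t) ∧ Pr (p t, θ t) = c t ∧ EqAt D p θ v w t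

/-! ## B-geometry: contacts with the floor -/

/-- unit speed curves in the plane along which all distances are attained are straight -/
def Stmt_LIN : Prop := ∀ (a b : ℝ) (z : ℝ → ℂ), a < b →
  (∀ s ∈ Icc a b, ∀ t ∈ Icc a b, ‖z s - z t‖ = |s - t|) →
  ∃ V : ℂ, ‖V‖ = 1 ∧ ∀ t ∈ Icc a b, z t = z a + ((t - a : ℝ) : ℂ) * V

/-- where `R' = κ A` the developing map turns solutions into straight lines: the developed
velocity is `e^{iκ(θ-c₀)} (v + i w)` and it is constant. Also the values of `Z` on the floor. -/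
def Stmt_DEV : Prop := (∀ (D : QD) (c₀ : ℝ) (p θ v w : ℝ → ℝ) (t : ℝ), D.pf < p t → p t < D.ℓ →
    EqAt D p θ v w t →
    HasDerivAt (fun u => D.Z c₀ (p u) (θ u))
      (Complex.exp ((D.κ * (θ t - c₀) : ℝ) * Complex.I) * ((v t : ℂ) + w t * Complex.I)) t ∧
    HasDerivAt (fun u => Complex.exp ((D.κ * (θ u - c₀) : ℝ) * Complex.I) *
      ((v u : ℂ) + w u * Complex.I)) 0 t) ∧
  (∀ (D : QD) (θ₀ c₀ : ℝ), D.IsFoot θ₀ c₀ → ∃ δ > 0, ∀ θ, |θ - θ₀| < δ → D.IsFoot θ c₀) ∧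
  (∀ (D : QD) (θ₀ c₀ : ℝ), D.IsFoot θ₀ c₀ → (D.Z c₀ (D.βh θ₀) θ₀).re = 0 ∧
    ∃ δ > 0, ∀ p θ, |θ - θ₀| < δ → |p - D.βh θ₀| < δ →
      ((D.Z c₀ p θ).re < 0 ↔ p < D.βh θ) ∧ ((D.Z c₀ p θ).re = 0 ↔ p = D.βh θ)) ∧
  (∀ (D : QD) (c₀ θ₀ : ℝ), |D.κ * (θ₀ - c₀)| < Real.pi → ∃ δ > 0, ∀ p p' θ θ', |θ - θ₀| < δ →
    |θ' - θ₀| < δ → p ∈ Icc D.pf D.ℓ → p' ∈ Icc D.pf D.ℓ → D.Z c₀ p θ = D.Z c₀ p' θ' →
    p = p' ∧ θ = θ')

/-- Regular contact: either the geodesic runs along the floor, or it crosses it. -/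
def Stmt_CRR : Prop := ∀ (D : QD) (X : Type) [MetricSpace X] (Pr : ℝ × ℝ → X), Facts D X Pr →
  ∀ c : ℝ → X, IsGeo c → ∀ τ θ₁ c₁, D.IsFoot θ₁ c₁ → c τ = Pr (D.fl θ₁) →
    (∃ δ > 0, ∀ t ∈ ball τ δ, ∃ θ, c t = Pr (D.fl θ)) ∨ ContactAt D Pr c τ

/-- Passage through `Q`: a ray along the floor, or a contact. -/
def Stmt_CRQ : Prop := ∀ (D : QD) (X : Type) [MetricSpace X] (Pr : ℝ × ℝ → X), Facts D X Pr →
  D.κ < 0 → ∀ c : ℝ → X, IsGeo c → ∀ τ, c τ = Pr (D.fl (Real.pi / 2)) →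
    (∃ δ > 0, ∀ t ∈ Ioo (τ - δ) τ, ∃ θ, c t = Pr (D.fl θ)) ∨
    (∃ δ > 0, ∀ t ∈ Ioo τ (τ + δ), ∃ θ, c t = Pr (D.fl θ)) ∨ ContactAt D Pr c τ

/-- A geodesic does not run along the floor (it would reach `A` or `B`). -/
def Stmt_NRN : Prop := ∀ (D : QD) (X : Type) [MetricSpace X] (Pr : ℝ × ℝ → X), Facts D X Pr →
  ∀ c : ℝ → X, IsGeo c → ∀ a b : ℝ, a < b → (∀ t ∈ Ioo a b, ∃ θ, c t = Pr (D.fl θ)) → False

/-- every time is a time in the strip or a contact (assembly of CON, CRR, CRQ, NRN) -/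
def Stmt_STR : Prop := ∀ (D : QD) (X : Type) [MetricSpace X] (Pr : ℝ × ℝ → X), Facts D X Pr →
  ∀ c : ℝ → X, IsGeo c → ∀ t, (∃ q, D.InS q ∧ c t = Pr q) ∨
    ((∃ θ, c t = Pr (D.fl θ)) ∧ ContactAt D Pr c t)

/-- `Contact` is invariant under `θ ↦ θ + 2πm` before and after -/
def Stmt_CSH : Prop := ∀ (D : QD) (θm vm wm θp vp wp : ℝ) (m m' : ℤ),
  Contact D θm vm wm θp vp wp →
  Contact D (θm + m * (2 * Real.pi)) vm wm (θp + m' * (2 * Real.pi)) vp wp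

/-- two lifts of the same arc agree up to `2πm` (closed interval) -/
def Stmt_UNC : Prop := ∀ (D : QD) (X : Type) [MetricSpace X] (Pr : ℝ × ℝ → X), Facts D X Pr →
  ∀ (c : ℝ → X) (a b : ℝ) (p θ v w p' θ' v' w' : ℝ → ℝ), Lift D Pr c a b p θ v w →
    Lift D Pr c a b p' θ' v' w' → ∃ m : ℤ, ∀ t ∈ Icc a b, p' t = p t ∧ v' t = v t ∧ w' t = w t ∧
      θ' t = θ t + m * (2 * Real.pi)

/-- lifts of the arc between two consecutive contacts -/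
def Stmt_LFE : Prop := ∀ (D : QD) (X : Type) [MetricSpace X] (Pr : ℝ × ℝ → X), Facts D X Pr →
  ∀ c : ℝ → X, IsGeo c → ∀ a b, a < b → (∀ t ∈ Ioo a b, ∃ q, D.InS q ∧ c t = Pr q) →
    ContactAt D Pr c a → ContactAt D Pr c b → ∃ p θ v w : ℝ → ℝ, Lift D Pr c a b p θ v w ∧
      p a = D.βh (θ a) ∧ p b = D.βh (θ b)

/-- enumeration of the contact times (pure real analysis) -/
def Stmt_ENU : Prop := ∀ (C : Set ℝ) (L : ℝ), 0 < L → IsClosed C → C.Nonempty →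
  (∀ t, t ∈ C ↔ t + L ∈ C) → (∀ t ∈ C, ∃ δ > 0, ∀ s ∈ C, |s - t| < δ → s = t) →
  ∃ (n : ℕ) (τ : ℕ → ℝ), 1 ≤ n ∧ StrictMono τ ∧ (∀ i, τ (i + n) = τ i + L) ∧ (∀ i, τ i ∈ C) ∧
    ∀ i, ∀ t ∈ Ioo (τ i) (τ (i + 1)), t ∉ C

/-- **Main theorem of B-geometry** (assembly of STR, ENU, LFE, UNC, CSH, ARC) -/
def Stmt_GEO : Prop := ∀ (D : QD) (X : Type) [MetricSpace X] (Pr : ℝ × ℝ → X), Facts D X Pr →
  ∀ (L : ℝ) (c : ℝ → X), IsClosedGeodesic L c → GeoData D L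

/-! ## designated closed geodesics -/

/-- local to global for closed curves (Lebesgue number) -/
def Stmt_LEB : Prop := ∀ (X : Type) [MetricSpace X] (c : ℝ → X) (L : ℝ), 0 < L →
  (∀ t, c (t + L) = c t) →
  (∀ t, ∃ δ > 0, ∀ s ∈ ball t δ, ∀ s' ∈ ball t δ, dist (c s) (c s') = |s - s'|) →
  IsClosedGeodesic L c

/-- A calibration `F` (a `C¹` function near `q` with `|dF| ≤ 1`) is `1`-Lipschitz near `q`. -/
def Stmt_CAL : Prop := ∀ (D : QD) (X : Type) [MetricSpace X] [CompactSpace X] (Pr : ℝ × ℝ → X),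
  Facts D X Pr → (∀ x y : X, ∃ z, dist x z = dist x y / 2 ∧ dist z y = dist x y / 2) →
  ∀ (q : ℝ × ℝ), D.InS q → ∀ (F : ℝ × ℝ → ℝ) (r : ℝ), 0 < r → ContDiffOn ℝ 1 F (ball q r) →
    (∀ x ∈ ball q r, ∀ u, |fderiv ℝ F x u| ≤ D.nm x.1 u) →
    ∃ δ > 0, ∀ x ∈ ball q δ, ∀ y ∈ ball q δ, |F x - F y| ≤ dist (Pr x) (Pr y)

/-- the waist circle -/
def Stmt_WST : Prop := ∀ (D : QD) (X : Type) [MetricSpace X] [CompactSpace X] (Pr : ℝ × ℝ → X),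
  Facts D X Pr → (∀ x y : X, ∃ z, dist x z = dist x y / 2 ∧ dist z y = dist x y / 2) →
  ∀ p₁ η, 0 < η → 0 < p₁ → (∀ θ, p₁ < D.βh θ) → (∀ p, |p - p₁| < η → D.R p = 1) →
  IsClosedGeodesic (2 * Real.pi) (fun t => Pr (p₁, t))

/-- the figure eight of phase T (`θf = π/2`, `0 < κ ≤ 1/3`): two chords of the flat part from the
foot `Q` to its copy `θ = -π/2`, one on each side. -/
def Stmt_EIG : Prop := ∀ (D : QD) (X : Type) [MetricSpace X] [CompactSpace X] (Pr : ℝ × ℝ → X),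
  Facts D X Pr → (∀ x y : X, ∃ z, dist x z = dist x y / 2 ∧ dist z y = dist x y / 2) →
  0 < D.κ → D.R D.pf < D.ρf * Real.cos (D.κ * Real.pi / 2) →
  ∃ c, IsClosedGeodesic (4 * D.ρf / D.κ * Real.sin (D.κ * Real.pi / 2)) (c : ℝ → X)

end Pool.MP8e
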