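import Pool.Agent.Work.MP_8e9dbb.IfaceB

/-!
# MP_8e9dbb_gt, B-analysis: phases F and T.  Statements of the blocks.

Notation for T: `γ = κπ ∈ (0, π/3]`, `h = ρf/κ` (distance of the floor from the virtual apex),
`c = 2 h tan(γ/2)` (length of the floor).  At a contact, with foot `c₀` and `δ = θ - c₀`:
`e^{iκδ}(v + i w) = e^{iα}` before the contact (`|α| < π/2`), `W = h tan(κ δ)`; after it
`δ⁺ = -δ`, `W⁺ = -W`, `e^{iκδ⁺}(v⁺ + i w⁺) = -e^{iα}`.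
-/

open MeasureTheory Filter Topology Metric Set
open scoped ContDiff

namespace Pool.MP8e

/-! ## Phase T, combinatorial part: pure inequality on sequences -/

/-- The sequence data of a closed geodesic in phase T. `α i`: angle of arrival at the contact `i`,
`W i`: its position, excursion `i` goes from contact `i` to contact `i + 1`, `ℓ i` = its length,
`ε i` = sense of rotation, `k i` = number of floor pieces passed, `Θ i ≥ 0` = excess turning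
(`= 0` iff the excursion stays in the flat part). -/
structure TSeq (h γ : ℝ) (n : ℕ) (α W ℓ Θ ε : ℕ → ℝ) (k : ℕ → ℕ) : Prop where
  n_pos : 1 ≤ n
  h_pos : 0 < h
  γ_pos : 0 < γ
  γ_le : γ ≤ Real.pi / 3
  perα : ∀ i, α (i + n) = α i
  perW : ∀ i, W (i + n) = W i
  bα : ∀ i, |α i| < Real.pi / 2
  bW : ∀ i, |W i| < h * Real.tan (γ / 2)
  mom : ∀ i, -(h * Real.sin (α i)) - W i * Real.cos (α i) =
    h * Real.sin (α (i + 1)) - W (i + 1) * Real.cos (α (i + 1))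
  ε_eq : ∀ i, ε i = 1 ∨ ε i = -1
  sgn : ∀ i, 0 < ε i * (-(h * Real.sin (α i)) - W i * Real.cos (α i))
  turn : ∀ i, ε i * (α (i + 1) - α i) = Real.pi - k i * γ - Θ i
  Θ_nonneg : ∀ i, 0 ≤ Θ i
  par : Even (∑ i ∈ Finset.range n, (1 + k i))
  lenF : ∀ i, Θ i = 0 → 2 * h * Real.sin (k i * γ / 2) +
    ε i * (W i + W (i + 1)) * Real.cos (k i * γ / 2) ≤ ℓ i
  lenC : ∀ i, 0 < Θ i → 2 * h * Real.sin (γ / 2) ≤ ℓ i
  Θ_lt : ∀ i, 0 < Θ i → Θ i < Real.pi - 3 * γ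
  Θ_gt : ∀ i, 0 < Θ i → α i = 0 → Real.pi - 5 * γ < Θ i

/-- **TCOMB.** Paper proof. `big i`: `0 < Θ i` or `2 ≤ k i`; otherwise `corner`: `Θ i = 0`, `k i = 1`
(`k i = 0` with `Θ i = 0` contradicts `bα`). From `sgn` and `mom`: `ε i * tan (α i) < tan (γ/2)`,
`ε i * tan (α (i+1)) > -tan (γ/2)`, so `π - k i γ - Θ i > -γ`.
(1) A big excursion has `ℓ i ≥ 2 h sin(γ/2)`: for `Θ i = 0`, `2 ≤ k i`, `k i γ < π + γ` use
`|W i + W (i+1)| ≤ c` and `2 h sin x - c |cos x| ≥ c` for `x ∈ [γ, (π+γ)/2]`. So two big ones suffice.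
(2) All corner excursions have `ℓ i ≥ 0`.
(3) No big one: `α (i+1) - α i = ε i (π-γ)`, `π - γ ≥ 2π/3`, hence `ε` alternates, `n` is even, `α` takes
the two values `a`, `a + (π-γ)`; summing `mom` gives `∑ sin α i = 0`, hence `α i = ∓(π-γ)/2`, then `mom`
gives `W (i+1) = W i`, and `ℓ i + ℓ (i+1) ≥ 4 h sin(γ/2)`.
(4) Exactly one big one, `m = n - 1` corners; shift the indices so that the big one is the last
(from `α m` to `α n = α 0`). `m` even `≥ 2`: `α m = α 0 = a`, `mom` for the big one gives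
`(W 0 - W m) cos a = 2 h sin a`, so `|tan a| < tan(γ/2)`, but `|a ± (π-γ)| < π/2` gives
`|a| > π/2 - γ ≥ γ/2`. Contradiction. `m` odd: `∑ sin = 0` gives `a = ∓(π-γ)/2`, `ε` of the big one is
`-sign (α m)` (by `sgn`), so `π - γ = π - k γ - Θ`, so `k = 0` or (`k = 1`, `Θ = 0`), but `k` is odd by
`par`. `m = 0`: `sin a = 0`, `π = k γ + Θ`, `k` odd. `Θ = 0`: `ℓ ≥ 2 h sin(π/2) = 2h ≥ 4 h sin(γ/2)`.
`Θ > 0`: `Θ_lt` gives `k > 3`, `Θ_gt` gives `k < 5`. Contradiction. -/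
def Stmt_TCOMB : Prop := ∀ (h γ : ℝ) (n : ℕ) (α W ℓ Θ ε : ℕ → ℝ) (k : ℕ → ℕ),
  TSeq h γ n α W ℓ Θ ε k → (∀ i, 0 < ℓ i) →
  4 * h * Real.sin (γ / 2) ≤ ∑ i ∈ Finset.range n, ℓ i

/-! ## Phase T: the data -/

/-- A visit of the cap `p ≤ pf` with positive rotation. -/
structure Cap (D : QD) (a b : ℝ) (p θ v w : ℝ → ℝ) : Prop where
  arc : Arc D a b p θ v w
  pa : p a = D.pf
  pb : p b = D.pf
  ins : ∀ t ∈ Ioo a b, p t < D.pf
  wpos : ∀ t ∈ Icc a b, 0 < w t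

/-- Analytic facts of phase T (to be proved by part C for the explicit data). -/
structure DataT (D : QD) : Prop where
  κ_pos : 0 < D.κ
  f_ge : ∀ p ∈ Ioc 0 D.ℓ, D.κ ≤ D.f p
  f_le : ∀ p ∈ Ioc 0 D.ℓ, D.f p ≤ 1 / 3
  f_gt : D.κ < 1 / 3 → ∀ p ∈ Ioo 0 D.pf, D.κ < D.f p
  num1 : D.κ < 1 / 3 → D.ρf ^ 2 * Real.sin (D.κ * Real.pi / 2) ^ 2 ≤
    (1 - (1 - 3 * D.κ) ^ 2) * (D.ρf ^ 2 - D.R D.pf ^ 2)
  third : ∃ q₀, 0 < q₀ ∧ q₀ ≤ D.pf ∧ (∀ p ∈ Ioc 0 q₀, D.f p = 1 / 3) ∧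
    (5 * D.κ ≤ 1 → D.ρf < 2 * D.R q₀ * Real.cos (D.κ * Real.pi / 2) ^ 2)

/-! ### the excursions of phase T -/

/-- the Clairaut constant, and: `w` has no zero -/
def Stmt_CLA : Prop := ∀ (D : QD) (a b : ℝ) (p θ v w : ℝ → ℝ), Arc D a b p θ v w →
  (∀ t ∈ Icc a b, D.R (p t) * w t = D.R (p a) * w a) ∧
  (D.pf ≤ p a → (∀ t ∈ Icc a b, w t = 0) → v a < 0 → p b < p a) ∧
  (w a ≠ 0 → ∀ t ∈ Icc a b, w t ≠ 0)

/-- an excursion has `w ≠ 0`: otherwise it reaches the pole -/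
def Stmt_WNZ : Prop := ∀ (D : QD) (a b : ℝ) (p θ v w : ℝ → ℝ), Exc D a b p θ v w →
  ∀ t ∈ Icc a b, w t ≠ 0

/-- the mirror image `θ → -θ` of an arc is an arc; time reversal -/
def Stmt_MIR : Prop := ∀ (D : QD) (a b : ℝ) (p θ v w : ℝ → ℝ), Arc D a b p θ v w →
  Arc D a b p (fun t => -θ t) v (fun t => -w t) ∧
  Arc D (-b) (-a) (fun t => p (-t)) (fun t => θ (-t)) (fun t => -v (-t)) (fun t => -w (-t)) ∧
  (∀ x : ℝ, Arc D (a + x) (b + x) (fun t => p (t - x)) (fun t => θ (t - x)) (fun t => v (t - x))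
    (fun t => w (t - x))) ∧
  (∀ y : ℝ, Arc D a b p (fun t => θ t + y) v w)

/-- angle tracking: for `w > 0` the direction `arccos v` has derivative `-f θ'`, and `R v` has the
derivative `f` -/
def Stmt_PSI : Prop := ∀ (D : QD) (a b : ℝ) (p θ v w : ℝ → ℝ), Arc D a b p θ v w →
  (∀ t ∈ Icc a b, 0 < w t) →
  (∀ t ∈ Ioo a b, HasDerivAt (fun u => Real.arccos (v u)) (-(D.f (p t) * (w t / D.R (p t)))) t) ∧
  (∀ t ∈ Ioo a b, HasDerivAt (fun u => D.R (p u) * v u) (D.f (p t)) t) ∧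
  ContinuousOn (fun u => Real.arccos (v u)) (Icc a b) ∧
  StrictMonoOn θ (Icc a b) ∧ (∀ t ∈ Icc a b, v t = Real.cos (Real.arccos (v t)) ∧
    w t = Real.sin (Real.arccos (v t)))

/-- **TEXC.** One excursion of phase T with `w > 0` (`ε = 1`), from the foot `cs` to the foot `ce`. -/
def Stmt_TEXC : Prop := ∀ (D : QD), DataT D → ∀ (a b : ℝ) (p θ v w : ℝ → ℝ), Exc D a b p θ v w →
  0 < w a → ∀ cs ce : ℝ, D.IsFoot (θ a) cs → D.IsFoot (θ b) ce →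
  ∀ αs αe : ℝ, |αs| < Real.pi / 2 → |αe| < Real.pi / 2 →
  Complex.exp ((D.κ * (θ a - cs) : ℝ) * Complex.I) * ((v a : ℂ) + w a * Complex.I) =
    -Complex.exp ((αs : ℝ) * Complex.I) →
  Complex.exp ((D.κ * (θ b - ce) : ℝ) * Complex.I) * ((v b : ℂ) + w b * Complex.I) =
    Complex.exp ((αe : ℝ) * Complex.I) →
  ∃ (k : ℕ) (Θ : ℝ), ce = cs + k * Real.pi ∧ αe - αs = Real.pi - k * (D.κ * Real.pi) - Θ ∧ 0 ≤ Θ ∧
    (Θ = 0 → 2 * (D.ρf / D.κ) * Real.sin (k * (D.κ * Real.pi) / 2) +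
      (D.ρf / D.κ * Real.tan (D.κ * (θ b - ce)) - D.ρf / D.κ * Real.tan (D.κ * (θ a - cs))) *
        Real.cos (k * (D.κ * Real.pi) / 2) ≤ b - a) ∧
    (0 < Θ → 2 * (D.ρf / D.κ) * Real.sin (D.κ * Real.pi / 2) ≤ b - a) ∧
    (0 < Θ → Θ < Real.pi - 3 * (D.κ * Real.pi)) ∧
    (0 < Θ → αs = 0 → Real.pi - 5 * (D.κ * Real.pi) < Θ)

/-- existence of the angles at a contact (`κ > 0`): arrival `e^{iα}`, departure `-e^{iα}` -/
def Stmt_TANG : Prop := ∀ (D : QD), 0 < D.κ → ∀ θm vm wm θp vp wp : ℝ, vm ^ 2 + wm ^ 2 = 1 →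
  Contact D θm vm wm θp vp wp → ∃ (cm cp α : ℝ) (j : ℤ), D.IsFoot θm cm ∧ D.IsFoot θp cp ∧
    cm = Real.pi / 2 + j * Real.pi ∧ (∃ n : ℤ, cp = -cm + n * (2 * Real.pi)) ∧
    θp - cp = -(θm - cm) ∧ |θm - cm| < Real.pi / 2 ∧ |α| < Real.pi / 2 ∧
    Complex.exp ((D.κ * (θm - cm) : ℝ) * Complex.I) * ((vm : ℂ) + wm * Complex.I) =
      Complex.exp ((α : ℝ) * Complex.I) ∧
    Complex.exp ((D.κ * (θp - cp) : ℝ) * Complex.I) * ((vp : ℂ) + wp * Complex.I) =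
      -Complex.exp ((α : ℝ) * Complex.I)

/-- **TSEQ.** From the geodesic to the sequences (and no contact is impossible). -/
def Stmt_TSEQ : Prop := ∀ (D : QD), DataT D → ∀ L, GeoData D L →
  ∃ (n : ℕ) (α W ℓ Θ ε : ℕ → ℝ) (k : ℕ → ℕ),
    TSeq (D.ρf / D.κ) (D.κ * Real.pi) n α W ℓ Θ ε k ∧ (∀ i, 0 < ℓ i) ∧
    ∑ i ∈ Finset.range n, ℓ i = L

/-- **Phase T, lower bound** (assembly) -/
def Stmt_TLOW : Prop := ∀ (D : QD), DataT D → ∀ L, GeoData D L →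
  4 * D.ρf / D.κ * Real.sin (D.κ * Real.pi / 2) ≤ L

/-! ## Phase F (`κ = 0`) -/

/-- Analytic facts of phase F. -/
structure DataF (D : QD) : Prop where
  κ_zero : D.κ = 0
  f_nonneg : ∀ p ∈ Ioc 0 D.ℓ, 0 ≤ D.f p
  f_zero : ∀ p ∈ Ioc 0 D.ℓ, D.f p = 0 → D.R p = 1
  exc : ∀ a b p θ v w, Exc D a b p θ v w → (∀ t ∈ Icc a b, w t ≠ 0) → Real.pi ≤ b - a

/-- **Phase F, lower bound.** No contact: `v' = f w²/R ≥ 0` and `v` is periodic, so `f = 0`, `R = 1`,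
`v = 0`, `θ' = w = ±1`. Contacts: `w` changes sign at each contact (`κ = 0`), so `n` is even. -/
def Stmt_FLOW : Prop := ∀ (D : QD), DataF D → ∀ L, GeoData D L → 2 * Real.pi ≤ L

end Pool.MP8e
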