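import Pool.Agent.Work.MP_8e9dbb.IfaceI
import Pool.Agent.Work.MP_8e9dbb.A.Calls

/-!
# MP_8e9dbb_gt : top level assembly
-/

open MeasureTheory Filter Topology Metric Set
open scoped ContDiff

namespace Pool.MP8e

/-- the area of the surface with quarter domain `D` -/
noncomputable def QD.ar (D : QD) : ℝ :=
  4 * ∫ θ in (0:ℝ)..(Real.pi / 2), ∫ p in (0:ℝ)..D.β θ, D.A p * D.R p

/-- the systole in phase T -/
noncomputable def QD.sysT (D : QD) : ℝ := 4 * D.ρf / D.κ * Real.sin (D.κ * Real.pi / 2)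

/-- there is a piece of cylinder of circumference `2π` above the floor -/
def QD.Waist (D : QD) : Prop :=
  ∃ p₁ η : ℝ, 0 < η ∧ 0 < p₁ ∧ (∀ θ, p₁ < D.βh θ) ∧ ∀ p, |p - p₁| < η → D.R p = 1

/-- What part A constructs. -/
structure AThy where
  surf : QD → ConeSphere
  prj : ∀ D : QD, ℝ × ℝ → (surf D).X
  facts : ∀ D : QD, Facts D (surf D).X (prj D)

/-- a monotone continuous path -/
def MPath (g h : ConeSphere) : Prop := ∃ (γ : ℝ → ConeSphere) (sys : ℝ → ℝ),
  (∀ t ∈ Icc (0:ℝ) 1, ∀ ε > 0, ∀ᶠ t' in 𝓝[Icc 0 1] t, LipClose (γ t) (γ t') ε) ∧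
  γ 0 = g ∧ γ 1 = h ∧ (∀ t ∈ Icc (0:ℝ) 1, HasSystole (γ t).X (sys t)) ∧
  AntitoneOn (fun t => area (γ t) / sys t ^ 2) (Icc 0 1)

theorem hasSystole_unique {X : Type} [MetricSpace X] {a b : ℝ} (ha : HasSystole X a)
    (hb : HasSystole X b) : a = b := ha.unique hb

theorem sysCongr {g h : ConeSphere} (e : g = h) {s : ℝ} (H : HasSystole g.X s) :
    HasSystole h.X s := e ▸ H

theorem MPath.trans {g h k : ConeSphere} (h1 : MPath g h) (h2 : MPath h k) : MPath g k := by
  obtain ⟨γ₁, s₁, c₁, a₁, b₁, y₁, m₁⟩ := h1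
  obtain ⟨γ₂, s₂, c₂, a₂, b₂, y₂, m₂⟩ := h2
  have hmid : γ₁ 1 = γ₂ 0 := by rw [b₁, a₂]
  have hs : s₁ 1 = s₂ 0 := by
    have e1 := y₁ 1 (by constructor <;> norm_num)
    have e2 := y₂ 0 (by constructor <;> norm_num)
    rw [← hmid] at e2
    exact hasSystole_unique e1 e2
  refine ⟨fun t => if t ≤ 1 / 2 then γ₁ (2 * t) else γ₂ (2 * t - 1),
    fun t => if t ≤ 1 / 2 then s₁ (2 * t) else s₂ (2 * t - 1), ?_, ?_, ?_, ?_, ?_⟩
  · intro t ht ε hε
    rcases lt_trichotomy t (1 / 2) with hlt | heq | hgt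
    · have hc := c₁ (2 * t) ⟨by linarith [ht.1], by linarith⟩ ε hε
      have hev : ∀ᶠ t' in 𝓝[Icc 0 1] t, t' < 1 / 2 :=
        (eventually_lt_nhds hlt).filter_mono nhdsWithin_le_nhds
      have htd : Tendsto (fun t' : ℝ => 2 * t') (𝓝[Icc 0 1] t ⊓ 𝓟 {t' | t' < 1 / 2})
          (𝓝[Icc 0 1] (2 * t)) := by
        refine tendsto_nhdsWithin_iff.mpr ⟨?_, ?_⟩
        · exact ((continuous_const.mul continuous_id).tendsto t).mono_left
            (inf_le_left.trans nhdsWithin_le_nhds)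
        · rw [eventually_inf_principal]
          filter_upwards [self_mem_nhdsWithin] with t' h1 (h2 : _)
          exact ⟨by linarith [h1.1], by linarith⟩
      have h3 := htd.eventually hc
      rw [eventually_inf_principal] at h3
      filter_upwards [h3, hev] with t' h4 h5
      have h6 := h4 h5
      simp only [if_pos hlt.le, if_pos h5.le]
      exact h6
    · subst heq
      have hcl := c₁ 1 (by constructor <;> norm_num) ε hε
      have hcr := c₂ 0 (by constructor <;> norm_num) ε hε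
      have htl : Tendsto (fun t' : ℝ => 2 * t') (𝓝[Icc 0 1] (1 / 2) ⊓ 𝓟 {t' | t' ≤ 1 / 2})
          (𝓝[Icc 0 1] (1:ℝ)) := by
        refine tendsto_nhdsWithin_iff.mpr ⟨?_, ?_⟩
        · have : Tendsto (fun t' : ℝ => 2 * t') (𝓝 (1 / 2)) (𝓝 (2 * (1 / 2))) :=
            (continuous_const.mul continuous_id).tendsto _
          rw [show (2:ℝ) * (1 / 2) = 1 by norm_num] at this
          exact this.mono_left (inf_le_left.trans nhdsWithin_le_nhds)
        · rw [eventually_inf_principal]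
          filter_upwards [self_mem_nhdsWithin] with t' h1 (h2 : _)
          exact ⟨by linarith [h1.1], by linarith⟩
      have htr : Tendsto (fun t' : ℝ => 2 * t' - 1) (𝓝[Icc 0 1] (1 / 2) ⊓ 𝓟 {t' | 1 / 2 < t'})
          (𝓝[Icc 0 1] (0:ℝ)) := by
        refine tendsto_nhdsWithin_iff.mpr ⟨?_, ?_⟩
        · have : Tendsto (fun t' : ℝ => 2 * t' - 1) (𝓝 (1 / 2)) (𝓝 (2 * (1 / 2) - 1)) :=
            ((continuous_const.mul continuous_id).sub continuous_const).tendsto _
          rw [show (2:ℝ) * (1 / 2) - 1 = 0 by norm_num] at this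
          exact this.mono_left (inf_le_left.trans nhdsWithin_le_nhds)
        · rw [eventually_inf_principal]
          filter_upwards [self_mem_nhdsWithin] with t' h1 (h2 : _)
          exact ⟨by linarith, by linarith [h1.2]⟩
      have hl := htl.eventually hcl
      have hr := htr.eventually hcr
      rw [eventually_inf_principal] at hl hr
      filter_upwards [hl, hr] with t' h4 h5
      simp only [if_pos (le_refl (1 / 2 : ℝ))]
      rw [show (2:ℝ) * (1 / 2) = 1 by norm_num]
      by_cases h6 : t' ≤ 1 / 2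
      · simp only [if_pos h6]
        exact h4 h6
      · simp only [if_neg h6]
        have := h5 (not_le.mp h6)
        rw [hmid]
        exact this
    · have hc := c₂ (2 * t - 1) ⟨by linarith, by linarith [ht.2]⟩ ε hε
      have hev : ∀ᶠ t' in 𝓝[Icc 0 1] t, 1 / 2 < t' :=
        (eventually_gt_nhds hgt).filter_mono nhdsWithin_le_nhds
      have htd : Tendsto (fun t' : ℝ => 2 * t' - 1) (𝓝[Icc 0 1] t ⊓ 𝓟 {t' | 1 / 2 < t'})
          (𝓝[Icc 0 1] (2 * t - 1)) := by
        refine tendsto_nhdsWithin_iff.mpr ⟨?_, ?_⟩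
        · exact (((continuous_const.mul continuous_id).sub continuous_const).tendsto t).mono_left
            (inf_le_left.trans nhdsWithin_le_nhds)
        · rw [eventually_inf_principal]
          filter_upwards [self_mem_nhdsWithin] with t' h1 (h2 : _)
          exact ⟨by linarith, by linarith [h1.2]⟩
      have h3 := htd.eventually hc
      rw [eventually_inf_principal] at h3
      filter_upwards [h3, hev] with t' h4 h5
      have h6 := h4 h5
      simp only [if_neg (not_le.mpr hgt), if_neg (not_le.mpr h5)]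
      exact h6
  · simp only [if_pos (show (0:ℝ) ≤ 1 / 2 by norm_num), mul_zero]
    exact a₁
  · simp only [if_neg (show ¬ (1:ℝ) ≤ 1 / 2 by norm_num)]
    rw [show (2:ℝ) * 1 - 1 = 1 by norm_num]
    exact b₂
  · intro t ht
    by_cases h : t ≤ 1 / 2
    · have e := y₁ (2 * t) ⟨by linarith [ht.1], by linarith⟩
      exact sysCongr (if_pos h).symm (by beta_reduce; rw [if_pos h]; exact e)
    · have h' := not_le.mp h
      have e := y₂ (2 * t - 1) ⟨by linarith, by linarith [ht.2]⟩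
      exact sysCongr (if_neg h).symm (by beta_reduce; rw [if_neg h]; exact e)
  · intro s hs' t ht hst
    by_cases h : t ≤ 1 / 2
    · have h' : s ≤ 1 / 2 := hst.trans h
      simp only [if_pos h, if_pos h']
      exact m₁ ⟨by linarith [hs'.1], by linarith⟩ ⟨by linarith [ht.1], by linarith⟩ (by linarith)
    · by_cases h' : s ≤ 1 / 2
      · simp only [if_neg h, if_pos h']
        rw [not_le] at h
        have e1 := m₁ (a := 2 * s) (b := 1) ⟨by linarith [hs'.1], by linarith⟩
          ⟨by norm_num, by norm_num⟩ (by linarith)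
        have e2 := m₂ (a := 0) (b := 2 * t - 1) ⟨by norm_num, by norm_num⟩
          ⟨by linarith, by linarith [ht.2]⟩ (by linarith)
        simp only at e1 e2
        rw [hs, hmid] at e1
        exact e2.trans e1
      · simp only [if_neg h, if_neg h']
        rw [not_le] at h h'
        exact m₂ ⟨by linarith, by linarith [hs'.2]⟩ ⟨by linarith, by linarith [ht.2]⟩ (by linarith)

theorem dL_le {g h : ConeSphere} {ε : ℝ} (h1 : LipClose g h ε) : dL g h ≤ ENNReal.ofReal ε :=
  iInf₂_le ε h1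

theorem MPath.monotonePath {g h : ConeSphere} (h1 : MPath g h) (hg : IsRound g)
    (hh : IsDoubledEquilateral h) : MonotonePath := by
  obtain ⟨γ, s, c, a, b, y, m⟩ := h1
  refine ⟨fun t => γ t, ?_, ?_, ?_, fun t => s t, fun t => y t t.2, ?_⟩
  · intro t
    rw [ENNReal.tendsto_nhds_zero]
    intro ε hε
    by_cases hε' : ε = ⊤
    · filter_upwards with t'
      rw [hε']
      exact le_top
    have hpos : 0 < ε.toReal := ENNReal.toReal_pos hε.ne' hε'
    have hc := c t t.2 ε.toReal hpos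
    have htd : Tendsto (fun t' : unitInterval => (t' : ℝ)) (𝓝 t) (𝓝[Icc 0 1] (t : ℝ)) :=
      tendsto_nhdsWithin_iff.mpr ⟨continuous_subtype_val.tendsto t, by
        filter_upwards with t' using t'.2⟩
    filter_upwards [htd.eventually hc] with t' ht'
    calc dL (γ t) (γ t') ≤ ENNReal.ofReal ε.toReal := dL_le ht'
      _ = ε := ENNReal.ofReal_toReal hε'
  · change IsRound (γ ((0 : unitInterval) : ℝ))
    rw [show ((0 : unitInterval) : ℝ) = 0 from rfl, a]
    exact hg
  · change IsDoubledEquilateral (γ ((1 : unitInterval) : ℝ))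
    rw [show ((1 : unitInterval) : ℝ) = 1 from rfl, b]
    exact hh
  · intro t t' htt
    exact m t.2 t'.2 htt

/-- The systole of a surface for which the lower bound and a closed geodesic are known. -/
theorem hasSystole_of {X : Type} [MetricSpace X] {S : ℝ} (c : ℝ → X)
    (hc : IsClosedGeodesic S c) (h : ∀ L (c : ℝ → X), IsClosedGeodesic L c → S ≤ L) :
    HasSystole X S := ⟨⟨c, hc⟩, fun L ⟨c', hc'⟩ => h L c' hc'⟩

section
variable (A : AThy)

theorem sysI (hG : Stmt_GEO) (hI : Stmt_ILOW) (hW : Stmt_WST) (D : QD) (h : CapsI D)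
    (hw : D.Waist) : HasSystole (A.surf D).X (2 * Real.pi) := by
  obtain ⟨p₁, η, h1, h2, h3, h4⟩ := hw
  exact hasSystole_of _ (hW D _ (A.prj D) (A.facts D) (A.surf D).length p₁ η h1 h2 h3 h4)
    fun L c hc => hI D h L (hG D _ (A.prj D) (A.facts D) L c hc)

theorem sysF (hG : Stmt_GEO) (hI : Stmt_FLOW) (hW : Stmt_WST) (D : QD) (h : DataF D)
    (hw : D.Waist) : HasSystole (A.surf D).X (2 * Real.pi) := by
  obtain ⟨p₁, η, h1, h2, h3, h4⟩ := hw
  exact hasSystole_of _ (hW D _ (A.prj D) (A.facts D) (A.surf D).length p₁ η h1 h2 h3 h4)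
    fun L c hc => hI D h L (hG D _ (A.prj D) (A.facts D) L c hc)

theorem sysT (hG : Stmt_GEO) (hI : Stmt_TLOW) (hE : Stmt_EIG) (D : QD) (h : DataT D)
    (hw : D.R D.pf < D.ρf * Real.cos (D.κ * Real.pi / 2)) : HasSystole (A.surf D).X D.sysT := by
  obtain ⟨c, hc⟩ := hE D _ (A.prj D) (A.facts D) (A.surf D).length h.κ_pos hw
  exact hasSystole_of c hc fun L c hc => hI D h L (hG D _ (A.prj D) (A.facts D) L c hc)

theorem area_surf (hAr : StmtArea) (D : QD) : area (A.surf D) = D.ar := by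
  letI : MeasurableSpace (A.surf D).X := borel (A.surf D).X
  haveI : BorelSpace (A.surf D).X := ⟨rfl⟩
  exact hAr D (A.surf D).X (A.prj D) (A.facts D)

end

/-- the quantity `σ` along phase T, parametrised by `t = 3κ ∈ [0, 1]`; at `t = 0` the surface is
the end of phase F with systole `2π` -/
noncomputable def sigT (T : ℝ → QD) (t : ℝ) : ℝ :=
  if t = 0 then (T 0).ar / (2 * Real.pi) ^ 2 else (T t).ar / (T t).sysT ^ 2

/-- What part C constructs: the four families (all parametrised by `[0, 1]`; the start of phase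
R is the round sphere, `S 0 = R 1`, `F 0 = S 1`, `T 0 = F 1`). -/
structure CThy (A : AThy) where
  R : ℝ → QD
  S : ℝ → QD
  F : ℝ → QD
  T : ℝ → QD
  hR : ∀ t ∈ Ioc (0:ℝ) 1, CapsI (R t) ∧ (R t).Waist
  hS : ∀ t ∈ Ico (0:ℝ) 1, CapsI (S t) ∧ (S t).Waist
  hF : ∀ t ∈ Icc (0:ℝ) 1, DataF (F t) ∧ (F t).Waist
  hT : ∀ t ∈ Ioc (0:ℝ) 1, DataT (T t) ∧
    (T t).R (T t).pf < (T t).ρf * Real.cos ((T t).κ * Real.pi / 2)
  jRS : S 0 = R 1
  jSF : F 0 = S 1
  jFT : T 0 = F 1
  cR : ∀ t ∈ Ioc (0:ℝ) 1, ∀ ε > 0, ∀ᶠ t' in 𝓝[Icc 0 1] t, LipClose (A.surf (R t)) (A.surf (R t')) ε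
  cS : ∀ t ∈ Icc (0:ℝ) 1, ∀ ε > 0, ∀ᶠ t' in 𝓝[Icc 0 1] t, LipClose (A.surf (S t)) (A.surf (S t')) ε
  cF : ∀ t ∈ Icc (0:ℝ) 1, ∀ ε > 0, ∀ᶠ t' in 𝓝[Icc 0 1] t, LipClose (A.surf (F t)) (A.surf (F t')) ε
  cT : ∀ t ∈ Icc (0:ℝ) 1, ∀ ε > 0, ∀ᶠ t' in 𝓝[Icc 0 1] t, LipClose (A.surf (T t)) (A.surf (T t')) ε
  c0 : ∀ g : ConeSphere, IsRound g → ∀ ε > 0, ∀ᶠ t in 𝓝[Ioc 0 1] (0:ℝ),
    LipClose g (A.surf (R t)) ε
  aR : AntitoneOn (fun t => (R t).ar) (Ioc 0 1)
  aR' : ∀ t ∈ Ioc (0:ℝ) 1, (R t).ar ≤ 4 * Real.pi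
  aS : AntitoneOn (fun t => (S t).ar) (Icc 0 1)
  aF : AntitoneOn (fun t => (F t).ar) (Icc 0 1)
  aT : AntitoneOn (sigT T) (Icc 0 1)
  dbl : IsDoubledEquilateral (A.surf (T 1))

/-- **The main theorem from the parts.** -/
theorem monotonePath_of (A : AThy) (C : CThy A) (hG : Stmt_GEO) (hI : Stmt_ILOW) (hF : Stmt_FLOW)
    (hT : Stmt_TLOW) (hW : Stmt_WST) (hE : Stmt_EIG) (hAr : StmtArea) (g : ConeSphere)
    (hg : IsRound g) (h2 : StmtSph2) (h3 : StmtSph3) : MonotonePath := by
  have sS : ∀ t ∈ Icc (0:ℝ) 1, HasSystole (A.surf (C.S t)).X (2 * Real.pi) := by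
    intro t ht
    rcases eq_or_lt_of_le ht.2 with h | h
    · have e : A.surf (C.F 0) = A.surf (C.S t) := by rw [C.jSF, h]
      exact sysCongr e (sysF A hG hF hW _ (C.hF 0 ⟨le_refl _, zero_le_one⟩).1
        (C.hF 0 ⟨le_refl _, zero_le_one⟩).2)
    · exact sysI A hG hI hW _ (C.hS t ⟨ht.1, h⟩).1 (C.hS t ⟨ht.1, h⟩).2
  have sF : ∀ t ∈ Icc (0:ℝ) 1, HasSystole (A.surf (C.F t)).X (2 * Real.pi) := fun t ht =>
    sysF A hG hF hW _ (C.hF t ht).1 (C.hF t ht).2
  have sR : ∀ t ∈ Ioc (0:ℝ) 1, HasSystole (A.surf (C.R t)).X (2 * Real.pi) := fun t ht =>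
    sysI A hG hI hW _ (C.hR t ht).1 (C.hR t ht).2
  have p2 : MPath (A.surf (C.R 1)) (A.surf (C.F 0)) := by
    refine ⟨fun t => A.surf (C.S t), fun _ => 2 * Real.pi, C.cS, by beta_reduce; rw [C.jRS],
      by beta_reduce; rw [C.jSF], sS, ?_⟩
    intro s hs t ht hst
    simp only [area_surf A hAr]
    have := C.aS hs ht hst
    simp only at this
    gcongr
  have p3 : MPath (A.surf (C.F 0)) (A.surf (C.F 1)) := by
    refine ⟨fun t => A.surf (C.F t), fun _ => 2 * Real.pi, C.cF, rfl, rfl, sF, ?_⟩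
    intro s hs t ht hst
    simp only [area_surf A hAr]
    have := C.aF hs ht hst
    simp only at this
    gcongr
  have p4 : MPath (A.surf (C.F 1)) (A.surf (C.T 1)) := by
    refine ⟨fun t => A.surf (C.T t), fun t => if t = 0 then 2 * Real.pi else (C.T t).sysT, C.cT,
      by beta_reduce; rw [C.jFT], rfl, ?_, ?_⟩
    · intro t ht
      rcases eq_or_lt_of_le ht.1 with h | h
      · subst h
        have e : A.surf (C.F 1) = A.surf (C.T 0) := by rw [C.jFT]
        simp only [if_true]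
        exact sysCongr e (sF 1 ⟨zero_le_one, le_refl _⟩)
      · simp only [if_neg h.ne']
        exact sysT A hG hT hE _ (C.hT t ⟨h, ht.2⟩).1 (C.hT t ⟨h, ht.2⟩).2
    · have e : (fun t => area (A.surf (C.T t)) /
          (if t = 0 then 2 * Real.pi else (C.T t).sysT) ^ 2) = sigT C.T := by
        funext t
        rw [area_surf A hAr]
        by_cases h : t = 0
        · simp only [sigT, if_pos h, h, if_true]
        · simp only [sigT, if_neg h]
      rw [e]
      exact C.aT
  have p1 : MPath g (A.surf (C.R 1)) := by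
    refine ⟨fun t => if t = 0 then g else A.surf (C.R t), fun _ => 2 * Real.pi, ?_, ?_, ?_, ?_, ?_⟩
    · intro t ht ε hε
      rcases eq_or_lt_of_le ht.1 with h | h
      · subst h
        simp only [if_true]
        have h4 := C.c0 g hg ε hε
        rw [eventually_nhdsWithin_iff] at h4 ⊢
        filter_upwards [h4] with t' h5 h6
        by_cases h7 : t' = 0
        · rw [if_pos h7]
          refine ⟨Equiv.refl _, fun x y => ?_⟩
          have h8 : 1 ≤ Real.exp ε := Real.one_le_exp hε.le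
          exact ⟨le_mul_of_one_le_left dist_nonneg h8, le_mul_of_one_le_left dist_nonneg h8⟩
        · rw [if_neg h7]
          exact h5 ⟨lt_of_le_of_ne h6.1 (Ne.symm h7), h6.2⟩
      · simp only [if_neg h.ne']
        have h4 := C.cR t ⟨h, ht.2⟩ ε hε
        have h5 : ∀ᶠ t' in 𝓝[Icc 0 1] t, 0 < t' :=
          (eventually_gt_nhds h).filter_mono nhdsWithin_le_nhds
        filter_upwards [h4, h5] with t' h6 h7
        rw [if_neg h7.ne']
        exact h6
    · simp only [if_true]
    · simp only [if_neg (one_ne_zero : (1:ℝ) ≠ 0)]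
    · intro t ht
      rcases eq_or_lt_of_le ht.1 with h | h
      · exact sysCongr (if_pos h.symm).symm (h3 g hg)
      · exact sysCongr (if_neg h.ne').symm (sR t ⟨h, ht.2⟩)
    · intro s hs t ht hst
      beta_reduce
      have key : area (if t = 0 then g else A.surf (C.R t)) ≤
          area (if s = 0 then g else A.surf (C.R s)) := by
        rcases eq_or_lt_of_le ht.1 with h | h
        · have h' : s = 0 := le_antisymm (hst.trans h.symm.le) hs.1
          rw [if_pos h.symm, if_pos h']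
        · rw [if_neg h.ne']
          rcases eq_or_lt_of_le hs.1 with h' | h'
          · rw [if_pos h'.symm, h2 g hg, area_surf A hAr]
            exact C.aR' t ⟨h, ht.2⟩
          · rw [if_neg h'.ne', area_surf A hAr, area_surf A hAr]
            exact C.aR ⟨h', hs.2⟩ ⟨h, ht.2⟩ hst
      gcongr
  exact ((p1.trans p2).trans (p3.trans p4)).monotonePath hg C.dbl

end Pool.MP8e
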