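import Pool.Agent.Work.MP_8e9dbb.C.Cont
import Pool.Agent.Work.MP_8e9dbb.A.Area
import Pool.Agent.Work.MP_8e9dbb.A.AreaGen
import Pool.Agent.Work.MP_8e9dbb.A.Off
import Pool.Agent.Work.MP_8e9dbb.A.Ret
import Pool.Agent.Work.MP_8e9dbb.A.Lip
import Pool.Agent.Work.MP_8e9dbb.A.Sph1
import Pool.Agent.Work.MP_8e9dbb.A.Sph2
import Pool.Agent.Work.MP_8e9dbb.A.Sph3
import Pool.Agent.Work.MP_8e9dbb.B.Arc
import Pool.Agent.Work.MP_8e9dbb.B.Beta
import Pool.Agent.Work.MP_8e9dbb.B.Cal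
import Pool.Agent.Work.MP_8e9dbb.B.ClassIF
import Pool.Agent.Work.MP_8e9dbb.B.Cmp
import Pool.Agent.Work.MP_8e9dbb.B.ConePts
import Pool.Agent.Work.MP_8e9dbb.B.Crq
import Pool.Agent.Work.MP_8e9dbb.B.Crr
import Pool.Agent.Work.MP_8e9dbb.B.Csh
import Pool.Agent.Work.MP_8e9dbb.B.Dev
import Pool.Agent.Work.MP_8e9dbb.B.Eig
import Pool.Agent.Work.MP_8e9dbb.B.Enu
import Pool.Agent.Work.MP_8e9dbb.B.FLow
import Pool.Agent.Work.MP_8e9dbb.B.Geo
import Pool.Agent.Work.MP_8e9dbb.B.Leb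
import Pool.Agent.Work.MP_8e9dbb.B.Lfe
import Pool.Agent.Work.MP_8e9dbb.B.Lif
import Pool.Agent.Work.MP_8e9dbb.B.Lin
import Pool.Agent.Work.MP_8e9dbb.B.Loc
import Pool.Agent.Work.MP_8e9dbb.B.Nrn
import Pool.Agent.Work.MP_8e9dbb.B.Spd
import Pool.Agent.Work.MP_8e9dbb.B.Str
import Pool.Agent.Work.MP_8e9dbb.B.TLow3
import Pool.Agent.Work.MP_8e9dbb.B.Unc
import Pool.Agent.Work.MP_8e9dbb.B.Uni
import Pool.Agent.Work.MP_8e9dbb.B.Var
import Pool.Agent.Work.MP_8e9dbb.B.Wst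
import Pool.Agent.Work.MP_8e9dbb.Z.ZA
import Pool.Agent.Work.MP_8e9dbb.Z.ZB
import Pool.Agent.Work.MP_8e9dbb.Z.ZD
import Pool.Agent.Work.MP_8e9dbb.Z.ZE1
import Pool.Agent.Work.MP_8e9dbb.Z.ZE2
import Pool.Agent.Work.MP_8e9dbb.Z.ZE3
import Pool.Agent.Work.MP_8e9dbb.Z.ZG
import Pool.Agent.Work.MP_8e9dbb.Z.ZH
import Pool.Agent.Work.MP_8e9dbb.Z.ZL1
import Pool.Agent.Work.MP_8e9dbb.Z.ZL2
import Pool.Agent.Work.MP_8e9dbb.Z.ZL3
import Pool.Agent.Work.MP_8e9dbb.Z.ZS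

/-!
# MP_8e9dbb_gt : the main theorem
-/

namespace Pool.MP8e

theorem final_loc : Stmt_LOC := loc_proof blk_LIF spd_proof cmp_proof var_proof beta_proof

theorem final_arc : Stmt_ARC := arc_proof final_loc blk_UNI

theorem final_geo : Stmt_GEO :=
  geo_proof (str_proof blk_CON (crr_proof final_arc) (crq_proof beta_proof)
    (nrn_proof blk_CON lin_proof dev_proof)) enu_proof (lfe_proof final_arc blk_UNI)
    (unc_proof blk_UNI) blk_CSH final_arc blk_UNI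

theorem final_cal : Stmt_CAL := cal_proof beta_proof

theorem final_zb : Zero.Stmt_ZB := Zero.zb_proof Zero.ze2_proof Zero.zs_proof

theorem final_za : Zero.Stmt_ZA :=
  Zero.za_proof Zero.zg_proof final_zb Zero.zh_proof (Zero.zl1_proof Zero.ze1_proof)
    (Zero.zl2_proof beta_proof Zero.ze1_proof Zero.zs_proof final_zb)
    (Zero.zl3_proof Zero.ze1_proof Zero.ze2_proof Zero.ze3_proof Zero.zs_proof final_zb)

theorem main_of (hB : StmtBet) (hL : StmtLip) : MonotonePath := by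
  obtain ⟨g, hg, _⟩ := sph1
  exact monotonePath_of (C.aThy hB) (C.cThy hB hL final_za Zero.zd_proof) final_geo
    ilow_proof flow_proof tlow_proof (wst_proof leb_proof cmp_proof final_cal)
    (eig_proof leb_proof cmp_proof final_cal beta_proof) (blk_AREA2 AreaGen.stmt_AreaGen) g hg
    (sph2 AreaGen.stmt_AreaGen) blk_SPH3

/-- **Q1**: the answer is yes. -/
theorem main : MonotonePath := main_of blk_RET (blk_LIP blk_RET blk_OFF)

end Pool.MP8e
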